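import Mathlib
import Pool.Agent.H6.SelfInv

namespace Pool.Agent.Results.MP_e6e7b2_al.NotHN

open MvPowerSeries Pool.Agent.H6.SelfInv

abbrev R := MvPowerSeries (Fin 3) ℂ

noncomputable def J : R := C Complex.I

lemma J_sq : J ^ 2 = -1 := by
  unfold J; rw [← map_pow, Complex.I_sq]; simp

noncomputable def w : R := (1 + (X 0 + J * X 1))⁻¹
noncomputable def s : R := X 2 * w
noncomputable def u : R := X 0 - J * X 1 + X 2 * s
noncomputable def P : R := u ^ 2

lemma w_mul : w * (1 + (X 0 + J * X 1)) = 1 := by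
  unfold w
  refine MvPowerSeries.inv_mul_cancel _ ?_
  simp [J]

lemma dJ (d : Derivation ℂ R R) : d J = 0 := d.map_algebraMap Complex.I

lemma d2 (d : Derivation ℂ R R) : d 2 = 0 := d.map_natCast 2

lemma dw (d : Derivation ℂ R R) : d w = -(d (X 0) + J * d (X 1)) * w ^ 2 := by
  have h := congrArg d w_mul
  simp only [Derivation.leibniz, map_add, Derivation.map_one_eq_zero, smul_eq_mul, dJ] at h
  linear_combination w * h - d w * w_mul

lemma ds (d : Derivation ℂ R R) : d s = (d (X 2) - (d (X 0) + J * d (X 1)) * s) * w := by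
  simp only [s, Derivation.leibniz, smul_eq_mul, dw]; ring

lemma du (d : Derivation ℂ R R) :
    d u = d (X 0) * (1 - s ^ 2) - d (X 1) * J * (1 + s ^ 2) + d (X 2) * (2 * s) := by
  simp only [u, map_add, map_sub, Derivation.leibniz, smul_eq_mul, dJ, ds]
  simp only [s]
  ring

lemma dP (d : Derivation ℂ R R) : d P = 2 * u * d u := by
  simp only [P, pow_two, Derivation.leibniz, smul_eq_mul]; ring

lemma p0 : pderiv ℂ 0 P = 2 * u * (1 - s ^ 2) := by rw [dP, du]; simp [pX]
lemma p1 : pderiv ℂ 1 P = -2 * u * (J * (1 + s ^ 2)) := by rw [dP, du]; simp [pX]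
lemma p2 : pderiv ℂ 2 P = 2 * u * (2 * s) := by rw [dP, du]; simp [pX]

lemma cs : constantCoeff s = 0 := by simp [s]
lemma cu : constantCoeff u = 0 := by simp [u]

lemma hes (i j : Fin 3) : Hes P i j =
    2 * pderiv ℂ i u * pderiv ℂ j u + 2 * u * pderiv ℂ i (pderiv ℂ j u) := by
  simp only [Hes, Matrix.of_apply, dP, Derivation.leibniz, smul_eq_mul, d2]; ring

theorem selfInv : SelfInverting P := by
  apply selfInv_of
  · exact_mod_cast le_order_pow_of_constantCoeff_eq_zero 2 cu
  · refine ⟨2, ?_⟩
    have e : (Hes P).map constantCoeff =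
        !![2, -2 * Complex.I, 0; -2 * Complex.I, -2, 0; 0, 0, 0] := by
      ext i j
      rw [Matrix.map_apply, hes, du, du]
      have h2 : constantCoeff (2 : R) = 2 := map_ofNat _ 2
      fin_cases i <;> fin_cases j <;> simp [pX, cs, cu, J, h2, mul_assoc]
    rw [e, pow_two]
    have := Complex.I_mul_I
    ext i j
    fin_cases i <;> fin_cases j <;> simp [Matrix.mul_apply, Fin.sum_univ_three]
    all_goals first | linear_combination 4 * this | ring
  · intro t φ h
    have hJ : φ J = J := φ.commutes Complex.I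
    have h0 := h 0
    have h1 := h 1
    have h2 := h 2
    rw [p0] at h0
    rw [p1] at h1
    rw [p2] at h2
    have hw := congrArg φ w_mul
    simp only [map_mul, map_add, map_one, hJ, h0, h1] at hw
    have hs : φ s = s := by
      have e : φ s = φ (X 2) * φ w := by simp only [s, map_mul]
      have e2 : X 2 = s * (1 + (X 0 + J * X 1)) := by
        simp only [s]; linear_combination (-X 2) * w_mul
      rw [e, h2]
      linear_combination φ w * e2 + s * hw + 2 * s * φ w * C t * u * (1 + s ^ 2) * J_sq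
    have hu : φ u = u := by
      have e : φ u = φ (X 0) - J * φ (X 1) + φ (X 2) * φ s := by
        simp only [u, map_mul, map_add, map_sub, hJ]
      rw [e, h0, h1, h2, hs]
      have e3 : u = X 0 - J * X 1 + X 2 * s := rfl
      linear_combination -e3 + 2 * C t * u * (1 + s ^ 2) * J_sq
    have h2' : φ 2 = 2 := map_ofNat _ 2
    intro j
    fin_cases j
    · show φ (pderiv ℂ 0 P) = pderiv ℂ 0 P
      simp [p0, hs, hu, h2']
    · show φ (pderiv ℂ 1 P) = pderiv ℂ 1 P
      simp [p1, hs, hu, h2', hJ]
    · show φ (pderiv ℂ 2 P) = pderiv ℂ 2 P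
      simp [p2, hs, hu, h2']

theorem trace_eq : (Hes P).trace = 4 * u * w := by
  simp only [Matrix.trace, Matrix.diag, Fin.sum_univ_three, hes, du]
  simp [pX, Derivation.leibniz, Derivation.leibniz_pow, ds, dJ, d2]
  linear_combination (2 * (1 + s ^ 2) ^ 2 + 4 * u * w * s ^ 2) * J_sq

theorem result : ∃ (n : ℕ) (P : MvPowerSeries (Fin n) ℂ),
    SelfInverting P ∧ ¬ IsNilpotent (Hes P) := by
  refine ⟨3, P, selfInv, fun h => ?_⟩
  have h1 := (Matrix.isNilpotent_trace_of_isNilpotent h).eq_zero
  rw [trace_eq] at h1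
  have h2 : u = 0 := by
    have h4 : (4 : R) ≠ 0 := fun h => by
      have := congrArg constantCoeff h
      rw [map_ofNat, map_zero] at this
      norm_num at this
    apply mul_left_cancel₀ h4
    linear_combination (1 + (X 0 + J * X 1)) * h1 - 4 * u * w_mul
  have h3 := du (pderiv ℂ 0)
  rw [h2, map_zero] at h3
  have := congrArg constantCoeff h3
  simp [pX, cs] at this

end Pool.Agent.Results.MP_e6e7b2_al.NotHN
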